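import Mathlib
import Pool.Agent.V11121.Polyplex.Games

/-!
# An optimal hyperplane cover whose entries are not multiples of the deficiency

The 9-dimensional (0,1)-matrix of order 2 whose ones are the coalitions of weight at least `62` for
the weights `29, 25, 19, 15, 12, 8, 8, 3, 3` is extremal, has deficiency `1/31`, and the cover
`λ (i, 1) = w i / 62`, `λ (i, 0) = 0` is optimal; `29/62` is not an integer multiple of `1/31`.
-/

namespace Pool.Agent.Results.MP_fa4fe0_co.HalfMultipleCover

open Pool.Agent.V11121.Polyplex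

/-- The weights (total `122`). -/
def w : Fin 9 → ℕ := ![29, 25, 19, 15, 12, 8, 8, 3, 3]

/-- The support of an optimal polyplex. -/
def S : Fin 9 → Fin 9 → Fin 2 :=
  ![![1, 1, 0, 0, 0, 1, 0, 0, 0],
    ![0, 1, 1, 0, 1, 0, 0, 1, 1],
    ![1, 0, 1, 0, 0, 1, 0, 1, 1],
    ![0, 1, 1, 1, 0, 0, 0, 1, 0],
    ![1, 0, 0, 1, 1, 0, 0, 1, 1],
    ![0, 0, 1, 1, 1, 1, 1, 0, 0],
    ![1, 1, 0, 0, 0, 0, 1, 0, 0],
    ![0, 1, 0, 1, 0, 1, 1, 1, 1],
    ![0, 1, 1, 1, 0, 0, 0, 0, 1]]

/-- The values of the optimal polyplex, multiplied by `31`. -/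
def c : Fin 9 → ℕ := ![4, 8, 7, 1, 9, 14, 11, 6, 1]

lemma gap : ∀ α : Fin 9 → Fin 2, 62 ≤ wt w α ∨ wt w α + 62 ≤ 122 := by decide +kernel

/-- **Main theorem.** There are an extremal 9-dimensional (0,1)-matrix of order `2` with deficiency
`1/31` and an optimal hyperplane cover of it with an entry that is not an integer multiple of the
deficiency. -/
theorem result :
    (IsExtremal (game w 62) ∧ IsDeficiency (game w 62) (1 / 31) ∧
      IsOptimalCover (game w 62) (gameCover w 62) ∧ gameCover w 62 0 1 = 29 / 62) ∧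
    ∃ (d n : ℕ) (A : Set (Fin d → Fin n)) (δ : ℝ) (Λ : Fin d → Fin n → ℝ), 2 ≤ d ∧
      IsExtremal A ∧ IsDeficiency A δ ∧ IsOptimalCover A Λ ∧
      ∃ i j, ∀ z : ℤ, Λ i j ≠ z * δ := by
  have h1 : IsExtremal (game w 62) := by
    refine game_isExtremal (t := 122) (by decide +kernel) (by norm_num) gap
  have h2 := game_deficiency (w := w) (q := 62) (t := 122) (N := 31) (S := S) (c := c)
      (by decide +kernel) (by norm_num) (by norm_num) (by decide +kernel) (by decide +kernel)
      (by decide +kernel)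
  have h3 : IsDeficiency (game w 62) (1 / 31) := by
    have h := h2.1
    norm_num at h
    norm_num
    exact h
  have h4 : gameCover w 62 0 1 = 29 / 62 := by
    have : w 0 = 29 := by decide +kernel
    unfold gameCover
    rw [this]
    norm_num
  refine ⟨⟨h1, h3, h2.2, h4⟩, 9, 2, game w 62, 1 / 31, gameCover w 62, by norm_num, h1, h3, h2.2,
    0, 1, ?_⟩
  intro z hz
  rw [h4] at hz
  have h5 : (29 : ℝ) = 2 * z := by linarith
  have h6 : (29 : ℤ) = 2 * z := by exact_mod_cast h5
  omega

end Pool.Agent.Results.MP_fa4fe0_co.HalfMultipleCover
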